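import Pool.Agent.H466.HD.SA

set_option autoImplicit false

namespace Pool.Agent.H404.HDBump

open Complex MeasureTheory Set Filter Topology
open scoped ContDiff FourierTransform RealInnerProductSpace

/-- bound for the Laplace transform of a function supported in `[-1,1]` -/
theorem lap_bd (h : ℝ → ℂ) (M : ℝ) (hs : ∀ x, x ∉ Icc (-1 : ℝ) 1 → h x = 0)
    (hM : ∀ x, ‖h x‖ ≤ M) (z : ℂ) :
    ‖∫ x : ℝ, h x * cexp (x * z)‖ ≤ 2 * M * Real.exp |z.re| := by
  have hM0 : 0 ≤ M := (norm_nonneg _).trans (hM 0)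
  have h1 : ∀ x : ℝ, ‖h x * cexp (x * z)‖ ≤
      (Icc (-1 : ℝ) 1).indicator (fun _ => M * Real.exp |z.re|) x := by
    intro x
    by_cases hx : x ∈ Icc (-1 : ℝ) 1
    · rw [indicator_of_mem hx, norm_mul, Complex.norm_exp]
      have e : ((x : ℂ) * z).re = x * z.re := by simp
      rw [e]
      have hx' : |x| ≤ 1 := abs_le.2 hx
      have h2 : x * z.re ≤ |z.re| := by
        calc x * z.re ≤ |x * z.re| := le_abs_self _
          _ = |x| * |z.re| := abs_mul _ _
          _ ≤ 1 * |z.re| := by gcongr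
          _ = |z.re| := one_mul _
      have h3 : Real.exp (x * z.re) ≤ Real.exp |z.re| := Real.exp_le_exp.2 h2
      exact mul_le_mul (hM x) h3 (Real.exp_pos _).le hM0
    · rw [indicator_of_notMem hx, hs x hx, zero_mul, norm_zero]
  have hint : Integrable ((Icc (-1 : ℝ) 1).indicator (fun _ => M * Real.exp |z.re|)) :=
    (integrable_indicator_iff measurableSet_Icc).2 (integrableOn_const (by simp))
  calc ‖∫ x : ℝ, h x * cexp (x * z)‖
      ≤ ∫ x : ℝ, (Icc (-1 : ℝ) 1).indicator (fun _ => M * Real.exp |z.re|) x :=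
        norm_integral_le_of_norm_le hint (ae_of_all _ h1)
    _ = 2 * M * Real.exp |z.re| := by
        rw [integral_indicator measurableSet_Icc, setIntegral_const]
        simp
        ring

theorem lap_parts (f : ℝ → ℂ) (hf : ContDiff ℝ ∞ f) (hc : HasCompactSupport f) (z : ℂ) :
    z * ∫ x : ℝ, f x * cexp (x * z) = - ∫ x : ℝ, deriv f x * cexp (x * z) := by
  have hcd : Continuous (deriv f) := hf.continuous_deriv (by simp)
  have he : Continuous (fun x : ℝ => cexp (x * z)) := by fun_prop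
  have h := integral_mul_deriv_eq_deriv_mul_of_integrable (u := f) (u' := deriv f)
    (v := fun x : ℝ => cexp (x * z)) (v' := fun x : ℝ => cexp (x * z) * z)
    (fun x _ => ((hf.differentiable (by simp)) x).hasDerivAt)
    (fun x _ => by
      have h1 : HasDerivAt (fun x : ℝ => (x : ℂ) * z) z x := by
        have := (Complex.ofRealCLM.hasDerivAt (x := x)).mul_const z
        simpa using this
      exact h1.cexp)
    ?_ ?_ ?_
  · rw [← h, ← integral_const_mul]
    refine integral_congr_ae (ae_of_all _ fun x => ?_)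
    simp only
    ring
  · exact (hf.continuous.mul (he.mul continuous_const)).integrable_of_hasCompactSupport
      hc.mul_right
  · exact (hcd.mul he).integrable_of_hasCompactSupport hc.deriv.mul_right
  · exact (hf.continuous.mul he).integrable_of_hasCompactSupport hc.mul_right

theorem lap_decay (n : ℕ) : ∀ f : ℝ → ℂ, ContDiff ℝ ∞ f → tsupport f ⊆ Icc (-1) 1 →
    ∃ M : ℝ, 0 ≤ M ∧ ∀ z : ℂ, ‖z‖ ^ n * ‖∫ x : ℝ, f x * cexp (x * z)‖ ≤
      M * Real.exp |z.re| := by
  induction n with
  | zero =>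
    intro f hf hs
    have hc : HasCompactSupport f := IsCompact.of_isClosed_subset isCompact_Icc
      (isClosed_tsupport f) hs
    obtain ⟨M, hM⟩ := hf.continuous.bounded_above_of_compact_support hc
    refine ⟨2 * M, by have := (norm_nonneg _).trans (hM 0); positivity, fun z => ?_⟩
    rw [pow_zero, one_mul]
    refine lap_bd f M (fun x hx => ?_) hM z
    exact image_eq_zero_of_notMem_tsupport fun h => hx (hs h)
  | succ n ih =>
    intro f hf hs
    have hc : HasCompactSupport f := IsCompact.of_isClosed_subset isCompact_Icc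
      (isClosed_tsupport f) hs
    have hf' : ContDiff ℝ ∞ (deriv f) := (contDiff_infty_iff_deriv.1 hf).2
    have hs' : tsupport (deriv f) ⊆ Icc (-1) 1 :=
      (closure_minimal (support_deriv_subset (f := f)) (isClosed_tsupport f)).trans hs
    obtain ⟨M, hM0, hM⟩ := ih (deriv f) hf' hs'
    refine ⟨M, hM0, fun z => ?_⟩
    have h1 : ‖z‖ * ‖∫ x : ℝ, f x * cexp (x * z)‖ = ‖∫ x : ℝ, deriv f x * cexp (x * z)‖ := by
      rw [← norm_mul, lap_parts f hf hc z, norm_neg]
    rw [pow_succ, mul_assoc, h1]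
    exact hM z

theorem bump : Pool.Agent.H466.HD.S_BUMP := by
  let f : ContDiffBump (0 : ℝ) := ⟨1 / 2, 1, by norm_num, by norm_num⟩
  obtain ⟨g, hgdef⟩ : ∃ g : ℝ → ℂ, g = fun x => ((f x : ℝ) : ℂ) := ⟨_, rfl⟩
  have hgx : ∀ x, g x = ((f x : ℝ) : ℂ) := fun x => by rw [hgdef]
  have hg : ContDiff ℝ ∞ g := by
    rw [hgdef]
    exact Complex.ofRealCLM.contDiff.comp f.contDiff
  have hf0 : ∀ x : ℝ, 1 ≤ |x| → f x = 0 := by
    intro x hx
    apply f.zero_of_le_dist
    rw [Real.dist_eq, sub_zero]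
    exact hx
  have hgs : tsupport g ⊆ Icc (-1) 1 := by
    refine closure_minimal ?_ isClosed_Icc
    intro x hx
    by_contra hcon
    apply hx
    rw [hgx, hf0 x, ofReal_zero]
    by_contra h
    exact hcon (abs_le.1 (not_le.1 h).le)
  have hgc : HasCompactSupport g := IsCompact.of_isClosed_subset isCompact_Icc
    (isClosed_tsupport g) hgs
  have hgint : Integrable g := hg.continuous.integrable_of_hasCompactSupport hgc
  obtain ⟨M, hM0, hM⟩ := lap_decay 10 g hg hgs
  obtain ⟨M', hM'0, hM'⟩ := lap_decay 0 g hg hgs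
  obtain ⟨C, hC⟩ : ∃ C : ℝ, C = 2 ^ 9 * (M' + M) + 1 := ⟨_, rfl⟩
  have hCp : 0 < C := by
    rw [hC]
    positivity
  have hlap : ∀ z : ℂ, ‖∫ x : ℝ, g x * cexp (x * z)‖ ≤ C * Real.exp |z.re| / (1 + ‖z‖) ^ 10 := by
    intro z
    have h1 : (1 + ‖z‖) ^ 10 ≤ 2 ^ 9 * (1 + ‖z‖ ^ 10) := by
      have := add_pow_le (zero_le_one (α := ℝ)) (norm_nonneg z) 10
      rw [one_pow] at this
      exact this
    have h2 := hM z
    have h3 := hM' z
    rw [pow_zero, one_mul] at h3
    have hpos : 0 < (1 + ‖z‖) ^ 10 := by positivity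
    rw [le_div_iff₀ hpos]
    have hE : 0 < Real.exp |z.re| := Real.exp_pos _
    calc ‖∫ x : ℝ, g x * cexp (x * z)‖ * (1 + ‖z‖) ^ 10
        ≤ ‖∫ x : ℝ, g x * cexp (x * z)‖ * (2 ^ 9 * (1 + ‖z‖ ^ 10)) := by gcongr
      _ = 2 ^ 9 * (‖∫ x : ℝ, g x * cexp (x * z)‖ +
          ‖z‖ ^ 10 * ‖∫ x : ℝ, g x * cexp (x * z)‖) := by ring
      _ ≤ 2 ^ 9 * (M' * Real.exp |z.re| + M * Real.exp |z.re|) := by gcongr
      _ ≤ C * Real.exp |z.re| := by
          rw [hC]
          nlinarith
  have hF : ∀ w : ℝ, 𝓕 g w = ∫ x : ℝ, g x * cexp (x * (-(2 * Real.pi * w) * I)) := by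
    intro w
    rw [Real.fourier_real_eq_integral_exp_smul]
    refine integral_congr_ae (ae_of_all _ fun x => ?_)
    simp only [smul_eq_mul]
    rw [mul_comm]
    congr 2
    push_cast
    ring
  have hFc : Continuous (𝓕 g) :=
    VectorFourier.fourierIntegral_continuous Real.continuous_fourierChar
      (innerSL ℝ).continuous₂ hgint
  have hFb : ∀ w : ℝ, ‖𝓕 g w‖ ≤ C * (1 + w ^ 2)⁻¹ := by
    intro w
    rw [hF]
    refine (hlap _).trans ?_
    have e1 : (-(2 * (Real.pi : ℂ) * w) * I).re = 0 := by simp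
    have e2 : ‖(-(2 * (Real.pi : ℂ) * w) * I)‖ = 2 * Real.pi * |w| := by
      rw [norm_mul, norm_neg, norm_mul, norm_mul, Complex.norm_I, mul_one, Complex.norm_real,
        Complex.norm_real, Real.norm_eq_abs, Real.norm_eq_abs, abs_of_pos Real.pi_pos]
      norm_num
    rw [e1, e2, abs_zero, Real.exp_zero, mul_one, div_eq_mul_inv]
    have h3 : 1 + w ^ 2 ≤ (1 + 2 * Real.pi * |w|) ^ 10 := by
      have hpi : 1 ≤ 2 * Real.pi := by
        have := Real.pi_gt_three
        linarith
      have hw : |w| ≤ 2 * Real.pi * |w| := by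
        have := abs_nonneg w
        nlinarith
      have hw0 : 0 ≤ 2 * Real.pi * |w| := (abs_nonneg w).trans hw
      calc 1 + w ^ 2 = 1 + |w| ^ 2 := by rw [sq_abs]
        _ ≤ (1 + 2 * Real.pi * |w|) ^ 2 := by
            have := abs_nonneg w
            nlinarith
        _ ≤ (1 + 2 * Real.pi * |w|) ^ 10 := by
            apply pow_le_pow_right₀ (by linarith) (by norm_num)
    gcongr
  have hFint : Integrable (𝓕 g) := by
    refine Integrable.mono' (integrable_inv_one_add_sq.const_mul C) hFc.aestronglyMeasurable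
      (ae_of_all _ hFb)
  have hinv : 𝓕⁻ (𝓕 g) = g := hg.continuous.fourierInv_fourier_eq hgint hFint
  obtain ⟨k, hk⟩ : ∃ k : ℝ → ℂ, k = fun v : ℝ => ((1 / (2 * Real.pi) : ℝ) : ℂ) *
      ∫ x : ℝ, (f x : ℂ) * cexp (I * x * v) := ⟨_, rfl⟩
  have hkF : ∀ v : ℝ, k v = ((1 / (2 * Real.pi) : ℝ) : ℂ) * 𝓕 g (-(1 / (2 * Real.pi)) * v) := by
    intro v
    rw [hk, hF]
    simp only
    congr 1
    refine integral_congr_ae (ae_of_all _ fun x => ?_)
    simp only [hgx]
    congr 2
    have hpi : (Real.pi : ℂ) ≠ 0 := by exact_mod_cast Real.pi_ne_zero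
    push_cast
    field_simp
  refine ⟨f, k, C, ?_⟩
  constructor
  · exact hCp
  · exact f.continuous
  · exact fun x => f.nonneg
  · exact fun x => f.le_one
  · intro x hx
    apply f.one_of_mem_closedBall
    rw [Metric.mem_closedBall, Real.dist_eq, sub_zero]
    exact hx
  · exact hf0
  · have : k = fun v : ℝ => ((1 / (2 * Real.pi) : ℝ) : ℂ) * 𝓕 g (-(1 / (2 * Real.pi)) * v) :=
      funext hkF
    rw [this]
    exact continuous_const.mul (hFc.comp (continuous_const.mul continuous_id))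
  · intro v
    rw [hk]
  · intro v
    have h1 : k v = ((1 / (2 * Real.pi) : ℝ) : ℂ) * ∫ x : ℝ, g x * cexp (x * (I * v)) := by
      rw [hk]
      simp only
      congr 1
      refine integral_congr_ae (ae_of_all _ fun x => ?_)
      simp only [hgx]
      congr 2
      ring
    rw [h1, norm_mul]
    have h2 := hlap (I * v)
    have e1 : (I * (v : ℂ)).re = 0 := by simp
    have e2 : ‖I * (v : ℂ)‖ = |v| := by simp
    rw [e1, e2, abs_zero, Real.exp_zero, mul_one] at h2
    have h3 : ‖((1 / (2 * Real.pi) : ℝ) : ℂ)‖ ≤ 1 := by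
      rw [Complex.norm_real, Real.norm_eq_abs, abs_of_pos (by positivity)]
      rw [div_le_one (by positivity)]
      have := Real.pi_gt_three
      linarith
    calc _ ≤ 1 * (C / (1 + |v|) ^ 10) := by
          exact mul_le_mul h3 h2 (norm_nonneg _) zero_le_one
      _ = C / (1 + |v|) ^ 10 := one_mul _
  · intro x
    have h1 : g x = 𝓕⁻ (𝓕 g) x := by rw [hinv]
    have h2 : 𝓕⁻ (𝓕 g) x = ∫ w : ℝ, cexp (2 * Real.pi * w * x * I) * 𝓕 g w := by
      rw [Real.fourierInv_eq']
      refine integral_congr_ae (ae_of_all _ fun w => ?_)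
      simp only [smul_eq_mul]
      congr 2
      have e : (inner ℝ w x : ℝ) = w * x := by simp [mul_comm]
      rw [e]
      push_cast
      ring
    have h3 := Measure.integral_comp_mul_left
      (fun w : ℝ => cexp (2 * Real.pi * w * x * I) * 𝓕 g w) (-(1 / (2 * Real.pi)))
    have e3 : |(-(1 / (2 * Real.pi)))⁻¹| = 2 * Real.pi := by
      rw [inv_neg, abs_neg, one_div, inv_inv, abs_of_pos (by positivity)]
    rw [e3, ← h2, ← h1] at h3
    have hpi : (Real.pi : ℂ) ≠ 0 := by exact_mod_cast Real.pi_ne_zero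
    rw [← hgx]
    have h4 : g x = ((1 / (2 * Real.pi) : ℝ) : ℂ) * ((2 * Real.pi : ℝ) • g x) := by
      rw [Complex.real_smul]
      push_cast
      field_simp
    rw [h4, ← h3, ← integral_const_mul]
    refine integral_congr_ae (ae_of_all _ fun v => ?_)
    simp only [hkF]
    have e5 : cexp (2 * Real.pi * ((-(1 / (2 * Real.pi)) * v : ℝ) : ℂ) * x * I) =
        cexp (-(I * x * v)) := by
      congr 1
      push_cast
      field_simp
    rw [e5]
    ring
  · intro z
    have := hlap z
    simp only [hgx] at this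
    exact this

end Pool.Agent.H404.HDBump

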